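import Mathlib

/-!
# Connected 3-(γ,2)-critical graphs have a dominating path with at most five vertices
-/

namespace Pool.Agent.Results.MP_8fbeef_co.FiveVertices

open SimpleGraph

variable {V : Type}

/-- every vertex outside `D` has a neighbour in `D` -/
def Dom (G : SimpleGraph V) (D : Set V) : Prop := ∀ v, v ∉ D → ∃ u ∈ D, G.Adj v u

/-- the domination number -/
noncomputable def gam (G : SimpleGraph V) : ℕ := sInf {k | ∃ D : Finset V, D.card = k ∧ Dom G D}

/-- `k`-`(γ,r)`-critical graphs -/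
def Crit (G : SimpleGraph V) (k r : ℕ) : Prop :=
  gam G = k ∧ ∀ u v, u ≠ v → ¬ G.Adj u v → G.edist u v ≤ r → gam (G ⊔ edge u v) < k

/-- `G` has a dominating path with at most `m` vertices -/
def HasDomPath (G : SimpleGraph V) (m : ℕ) : Prop :=
  ∃ (a b : V) (p : G.Walk a b), p.IsPath ∧ p.support.length ≤ m ∧ Dom G {y | y ∈ p.support}

/-- every connected 3-(γ,2)-critical graph has a dominating path with at most `m` vertices -/
def Bound (m : ℕ) : Prop :=
  ∀ (V : Type) [Fintype V] (G : SimpleGraph V), G.Connected → Crit G 3 2 → HasDomPath G m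

lemma ex [Fintype V] (G : SimpleGraph V) : ∃ D : Finset V, D.card = gam G ∧ Dom G D :=
  Nat.sInf_mem (s := {k | ∃ D : Finset V, D.card = k ∧ Dom G D})
    ⟨_, Finset.univ, rfl, fun v hv => absurd (by simp) hv⟩

lemma path (G : SimpleGraph V) (hc : G.Connected) (u x v : V) (h1 : G.Adj u x) (h2 : G.Adj x v)
    (D : Finset V) (hD : D.card < 3) (hu : u ∈ D) (hd : ∀ y, y ∉ D → y ≠ v → ∃ z ∈ D, G.Adj y z) :
    HasDomPath G 5 := by
  classical
  obtain ⟨w, hw⟩ : ∃ w, ∀ z ∈ D, z = u ∨ z = w := by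
    by_cases h : ∃ w ∈ D, w ≠ u
    · obtain ⟨w, w1, w2⟩ := h
      refine ⟨w, fun z hz => ?_⟩
      by_contra h3
      push Not at h3
      exact absurd (Finset.two_lt_card_iff.2 ⟨z, u, w, hz, hu, w1, h3.1, h3.2, w2.symm⟩) (by omega)
    · push Not at h
      exact ⟨u, fun z hz => Or.inl (h z hz)⟩
  have nb : ∀ y, y ≠ v → G.dist u y ≤ 1 ∨ G.dist y w ≤ 1 := by
    intro y hy
    by_cases hyD : y ∈ D
    · rcases hw y hyD with rfl | rfl
      · left; simp
      · right; simp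
    · obtain ⟨z, z1, z2⟩ := hd y hyD hy
      rcases hw z z1 with rfl | rfl
      · left; exact (dist_comm (G := G)).trans_le (dist_eq_one_iff_adj.2 z2).le
      · right; exact (dist_eq_one_iff_adj.2 z2).le
  obtain ⟨p, hp, hL⟩ := (hc u w).exists_path_of_dist
  have fin : ∀ S : Set V, u ∈ S → w ∈ S → (x ∈ S ∨ v ∈ S) → Dom G S := by
    intro S s1 s2 s3 y hy
    have hS : ∀ z ∈ D, z ∈ S := fun z hz => by rcases hw z hz with rfl | rfl <;> assumption
    by_cases hv : y = v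
    · subst hv
      exact ⟨x, s3.resolve_right hy, h2.symm⟩
    · obtain ⟨z, z1, z2⟩ := hd y (fun h => hy (hS y h)) hv
      exact ⟨z, hS z z1, z2⟩
  by_cases hL3 : G.dist u w ≤ 3
  · by_cases hx : x ∈ p.support
    · exact ⟨u, w, p, hp, by rw [Walk.length_support]; omega,
        fin _ p.start_mem_support p.end_mem_support (Or.inl hx)⟩
    · exact ⟨x, w, SimpleGraph.Walk.cons h1.symm p, hp.cons hx, by
        rw [Walk.length_support, Walk.length_cons]; omega,
        fin _ (by simp) (by simp) (Or.inl (by simp))⟩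
  · push Not at hL3
    have hv : ∀ i, 2 ≤ i → i + 2 ≤ G.dist u w → p.getVert i = v := by
      intro i i2 iL
      by_contra hne
      have e1 : G.dist u (p.getVert i) ≤ i :=
        (dist_le (p.take i)).trans (by rw [Walk.take_length]; exact min_le_left _ _)
      have e2 : G.dist (p.getVert i) w ≤ G.dist u w - i :=
        (dist_le (p.drop i)).trans (by rw [Walk.drop_length, hL])
      have e3 := hc.dist_triangle (u := u) (v := p.getVert i) (w := w)
      rcases nb _ hne with h | h <;> omega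
    have h2v := hv 2 le_rfl (by omega)
    have hL4 : G.dist u w = 4 := by
      by_contra hne
      have h3v := hv 3 (by omega) (by omega)
      have := hp.getVert_injOn (x₁ := 2) (x₂ := 3) (by
        simp only [Set.mem_ofPred_eq]; omega) (by simp only [Set.mem_ofPred_eq]; omega)
        (h2v.trans h3v.symm)
      omega
    refine ⟨u, w, p, hp, by rw [Walk.length_support]; omega, fin _ p.start_mem_support
      p.end_mem_support (Or.inr ?_)⟩
    rw [← h2v]
    exact p.getVert_mem_support 2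

lemma two (G : SimpleGraph V) (hc : G.Connected) (a b : V) (hab : a ≠ b) (h : ¬ G.Adj a b) :
    ∃ u x v, u ≠ v ∧ ¬ G.Adj u v ∧ G.Adj u x ∧ G.Adj x v := by
  by_contra hn
  push Not at hn
  have key : ∀ (s t : V) (p : G.Walk s t), s = t ∨ G.Adj s t := by
    intro s t p
    induction p with
    | nil => exact Or.inl rfl
    | @cons s x t h1 p ih =>
      rcases ih with rfl | h2
      · exact Or.inr h1
      · by_contra h3
        push Not at h3
        exact hn s x t h3.1 h3.2 h1 h2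
  obtain ⟨p⟩ := hc a b
  rcases key a b p with h' | h'
  · exact hab h'
  · exact h h'

lemma bound5 : Bound 5 := by
  intro V _ G hc h
  classical
  have low : ∀ D : Finset V, Dom G D → 3 ≤ D.card := fun D hD =>
    h.1 ▸ Nat.sInf_le ⟨D, rfl, hD⟩
  obtain ⟨a⟩ := hc.nonempty
  obtain ⟨b, hb1, hb2⟩ : ∃ b, b ≠ a ∧ ¬ G.Adj b a := by
    by_contra hn
    push Not at hn
    have := low {a} (fun v hv => ⟨a, by simp, hn v (by simpa using hv)⟩)
    simp at this
  obtain ⟨u, x, v, huv, hn, h1, h2⟩ := two G hc b a hb1 hb2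
  have hd : G.edist u v ≤ (2 : ℕ) :=
    G.edist_le (SimpleGraph.Walk.cons h1 (SimpleGraph.Walk.cons h2 SimpleGraph.Walk.nil))
  obtain ⟨D, d1, d2⟩ := ex (G ⊔ SimpleGraph.edge u v)
  have d3 : D.card < 3 := d1 ▸ h.2 u v huv hn hd
  obtain ⟨y, y1, y2⟩ : ∃ y, y ∉ D ∧ ∀ z ∈ D, ¬ G.Adj y z := by
    by_contra hn
    push Not at hn
    exact absurd (low D fun y hy => hn y hy) (by omega)
  obtain ⟨z, z1, z2⟩ := d2 y y1
  rw [SimpleGraph.sup_adj, SimpleGraph.edge_adj] at z2
  have gen : ∀ y', y' ∉ D → ∃ z ∈ D, G.Adj y' z ∨ (y' = u ∧ z = v ∨ y' = v ∧ z = u) := by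
    intro y' hy'
    obtain ⟨z, z1, z2⟩ := d2 y' hy'
    rw [SimpleGraph.sup_adj, SimpleGraph.edge_adj] at z2
    exact ⟨z, z1, z2.imp id And.left⟩
  rcases z2 with z2 | ⟨⟨rfl, rfl⟩ | ⟨rfl, rfl⟩, -⟩
  · exact absurd z2 (y2 z z1)
  · refine path G hc z x y h2.symm h1.symm D d3 z1 fun t t1 t2 => ?_
    obtain ⟨s, s1, s2 | ⟨s2, -⟩ | ⟨s2, -⟩⟩ := gen t t1
    · exact ⟨s, s1, s2⟩
    · exact absurd s2 t2
    · exact absurd (s2 ▸ z1) t1
  · refine path G hc z x y h1 h2 D d3 z1 fun t t1 t2 => ?_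
    obtain ⟨s, s1, s2 | ⟨s2, -⟩ | ⟨s2, -⟩⟩ := gen t t1
    · exact ⟨s, s1, s2⟩
    · exact absurd (s2 ▸ z1) t1
    · exact absurd s2 t2

/-! ### The cycle with seven vertices -/

lemma few {D : Finset (Fin 7)} (h : D.card ≤ 2) : ∃ a b, ∀ z ∈ D, z = a ∨ z = b := by
  by_cases e : D = ∅
  · exact ⟨0, 0, by simp [e]⟩
  obtain ⟨a, ha⟩ := Finset.nonempty_iff_ne_empty.2 e
  by_cases e2 : ∃ b ∈ D, b ≠ a
  · obtain ⟨b, hb, hba⟩ := e2
    refine ⟨a, b, fun z hz => ?_⟩
    by_contra h3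
    push Not at h3
    exact absurd (Finset.two_lt_card_iff.2 ⟨z, a, b, hz, ha, hb, h3.1, h3.2, hba.symm⟩) (by omega)
  · push Not at e2
    exact ⟨a, a, fun z hz => Or.inl (e2 z hz)⟩

lemma c7_two : ∀ a b : Fin 7, ∃ v, v ≠ a ∧ v ≠ b ∧ ¬ (cycleGraph 7).Adj v a ∧
    ¬ (cycleGraph 7).Adj v b := by decide

lemma c7_gam : gam (cycleGraph 7) = 3 := by
  refine le_antisymm (Nat.sInf_le ⟨{0, 3, 5}, rfl, ?_⟩) ?_
  · have : ∀ v : Fin 7, v ∉ ({0, 3, 5} : Finset (Fin 7)) →
        ∃ u ∈ ({0, 3, 5} : Finset (Fin 7)), (cycleGraph 7).Adj v u := by decide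
    exact fun v hv => this v hv
  · obtain ⟨D, h1, h2⟩ := ex (cycleGraph 7)
    rw [← h1]
    by_contra hlt
    obtain ⟨a, b, hab⟩ := few (D := D) (by omega)
    obtain ⟨v, v1, v2, v3, v4⟩ := c7_two a b
    obtain ⟨u, hu, huv⟩ := h2 v (fun hv => (hab v hv).elim v1 v2)
    rcases hab u hu with rfl | rfl
    · exact v3 huv
    · exact v4 huv

lemma c7_add : ∀ u v : Fin 7, u ≠ v → ¬ (cycleGraph 7).Adj u v →
    (∃ w, (cycleGraph 7).Adj u w ∧ (cycleGraph 7).Adj w v) →
    ∃ a b : Fin 7, ∀ y, y = a ∨ y = b ∨ (cycleGraph 7).Adj y a ∨ (cycleGraph 7).Adj y b ∨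
      (y = u ∧ a = v) ∨ (y = v ∧ a = u) := by decide

lemma common {G : SimpleGraph V} {u v : V} (huv : u ≠ v) (hn : ¬ G.Adj u v)
    (h : G.edist u v ≤ (2 : ℕ)) : ∃ w, G.Adj u w ∧ G.Adj w v := by
  obtain ⟨p, hp⟩ := exists_walk_of_edist_ne_top (ne_top_of_le_ne_top (ENat.natCast_ne_top 2) h)
  rw [← hp] at h
  have h' : p.length ≤ 2 := by exact_mod_cast h
  cases p with
  | nil => exact absurd rfl huv
  | cons h1 q =>
    cases q with
    | nil => exact absurd h1 hn
    | cons h2 r =>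
      cases r with
      | nil => exact ⟨_, h1, h2⟩
      | cons h3 s => simp only [Walk.length_cons] at h'; omega

lemma c7_crit : Crit (cycleGraph 7) 3 2 := by
  refine ⟨c7_gam, fun u v huv hn h => ?_⟩
  obtain ⟨a, b, hab⟩ := c7_add u v huv hn (common huv hn h)
  have hle : gam (cycleGraph 7 ⊔ edge u v) ≤ ({a, b} : Finset (Fin 7)).card := by
    refine Nat.sInf_le ⟨_, rfl, fun y hy => ?_⟩
    simp only [Finset.coe_insert, Finset.coe_singleton, Set.mem_insert_iff,
      Set.mem_singleton_iff, not_or] at hy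
    rcases hab y with h | h | h | h | ⟨h, h'⟩ | ⟨h, h'⟩
    · exact absurd h hy.1
    · exact absurd h hy.2
    · exact ⟨a, by simp, Or.inl h⟩
    · exact ⟨b, by simp, Or.inl h⟩
    · refine ⟨a, by simp, Or.inr ?_⟩
      rw [edge_adj]
      exact ⟨Or.inl ⟨h, h'⟩, hy.1⟩
    · refine ⟨a, by simp, Or.inr ?_⟩
      rw [edge_adj]
      exact ⟨Or.inr ⟨h, h'⟩, hy.1⟩
  exact lt_of_le_of_lt (hle.trans Finset.card_le_two) (by norm_num)

lemma c7_four : ∀ a b : Fin 7, (a = b ∨ (cycleGraph 7).Adj a b) →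
    ∀ c, (b = c ∨ (cycleGraph 7).Adj b c) → ∀ d, (c = d ∨ (cycleGraph 7).Adj c d) →
    ∃ v, v ≠ a ∧ v ≠ b ∧ v ≠ c ∧ v ≠ d ∧ ¬ (cycleGraph 7).Adj v a ∧ ¬ (cycleGraph 7).Adj v b ∧
      ¬ (cycleGraph 7).Adj v c ∧ ¬ (cycleGraph 7).Adj v d := by decide

lemma c7_path : ¬ HasDomPath (cycleGraph 7) 4 := by
  rintro ⟨a, b, p, -, hl, hd⟩
  have key : ∃ a b c d : Fin 7, (a = b ∨ (cycleGraph 7).Adj a b) ∧
      (b = c ∨ (cycleGraph 7).Adj b c) ∧ (c = d ∨ (cycleGraph 7).Adj c d) ∧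
      ∀ y ∈ p.support, y = a ∨ y = b ∨ y = c ∨ y = d := by
    rw [Walk.length_support] at hl
    cases p with
    | nil => exact ⟨a, a, a, a, by simp⟩
    | @cons _ c _ h1 q =>
      cases q with
      | nil => exact ⟨a, b, b, b, by simp [h1]⟩
      | @cons _ d _ h2 r =>
        cases r with
        | nil => exact ⟨a, c, b, b, by simp [h1, h2]⟩
        | @cons _ e _ h3 s =>
          cases s with
          | nil => exact ⟨a, c, d, b, by simp [h1, h2, h3]⟩
          | cons h4 t => simp only [Walk.length_cons] at hl; omega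
  obtain ⟨a', b', c', d', h1, h2, h3, h4⟩ := key
  obtain ⟨v, v1, v2, v3, v4, w1, w2, w3, w4⟩ := c7_four a' b' h1 c' h2 d' h3
  obtain ⟨u, hu, huv⟩ := hd v (fun hv => by
    rcases h4 v hv with h | h | h | h
    · exact v1 h
    · exact v2 h
    · exact v3 h
    · exact v4 h)
  rcases h4 u hu with rfl | rfl | rfl | rfl
  · exact w1 huv
  · exact w2 huv
  · exact w3 huv
  · exact w4 huv

/-- **Sharp form of Q1.** Every connected 3-(γ,2)-critical graph has a dominating path with at most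
five vertices, and five is the least number with this property. -/
theorem result : IsLeast {m | Bound m} 5 := by
  refine ⟨bound5, fun m hm => ?_⟩
  by_contra hlt
  push Not at hlt
  obtain ⟨a, b, p, hp, hl, hd⟩ := hm (Fin 7) (cycleGraph 7) cycleGraph_connected c7_crit
  exact c7_path ⟨a, b, p, hp, by omega, hd⟩

end Pool.Agent.Results.MP_8fbeef_co.FiveVertices
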